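import Mathlib
import Pool.Agent.Y82.GL.Sph2

/-!
# Spherical cusp forms on `PGL_2`: small primes at which almost all members of a family are tempered

Let `φ_1, …, φ_r` be any spherical cusp forms on `PGL_2` over `ℚ`, with the Satake parameters
`(α_i(p), α_i(p)⁻¹)` and the Langlands parameters `(μ_i, -μ_i)` at the real place. We show: for all natural
numbers `a`, `b`, `c`, with `b` and `c` not both zero, and all `ε > 0` there are a prime `p` and `k ≥ 1` with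

  `p^k ≤ A (∏_i (1 + |μ_i|))^{E (1 + ε)}`, `E = 6 b² + 4 a b + 8 a c + 24 b c + 20 c²`,

such that the number `z` of the forms `φ_i` which are not tempered at `p` satisfies

  `(a + 3 b + 5 c)² z < (a² + b² + c²) r`,

where `A` depends only on `r`, `a`, `b`, `c` and `ε`. For example:

* `(a, b, c) = (0, 0, 1)`, `(0, 1, 1)`, `(0, 1, 2)`, `(1, 2, 3)`: `z < r / 25`, `z < r / 32`, `z < r / 33.8`,
  `z < r / 34.57`, with the exponents `E = 20`, `50`, `134`, `380`;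
* `(a, b, c) = (1, 3, 5)`, the optimal choice: `z < r / 35`, with `E = 966`.

In particular, up to `32` forms are all tempered at a common prime `p ≤ A (∏_i (1 + |μ_i|))^{50 + ε}`, and up to `35`
forms are all tempered at a common prime `p ≤ A (∏_i (1 + |μ_i|))^{966 + ε}`.

Known before: for one form the primes at which it is not tempered have density at most `1/35` (Kim and Shahidi
2002), so for fixed `φ_i` there is a prime at which at most `r / 35` of the forms are not tempered (so for `r = 35`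
possibly one), without any bound for the prime; `NinetyPercentTempered` of this problem: for most primes, in the sense of
the density, at least `9/10` of the forms are tempered; `MP_8410ab_nt.SimultaneouslyTempered`: a bound for the least
common tempered place of at most `25` forms (`c = 1`, `a = b = 0`). Nothing uniform was known for more than `25` forms,
and nothing uniform on the proportion of the tempered forms in a large family. The forms need not be different, and the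
`μ_i` are arbitrary; there is no averaging over the spectrum.

The proof applies a uniform version of Landau's theorem (`Pool.Agent.TH949.UL`) to

  `∏_i L(s, Ad φ_i)^{b² + 2 a b} L(s, Sym⁴ φ_i)^{b² + 2 a c} L(s, Ad φ_i × Sym⁴ φ_i)^{2 b c}
    (L(s, Sym⁴ φ_i × Sym⁴ φ_i) / ζ(s))^{c²}`.

Its logarithm has the coefficients `∑_i (P(t_i)² - (a² + b² + c²)) / k`, where `t_i = α_i(p)^k + α_i(p)^{-k}` and
`P(t) = a + b (t² - 1) + c (t⁴ - 3 t² + 1)`, as `(t² - 1)² = 1 + (t² - 1) + (t⁴ - 3 t² + 1)`. If `φ_i` is not tempered at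
`p`, then `|t_i| ≥ 2` for all `k`, so `P(t_i) ≥ a + 3 b + 5 c`. The zeros of `ζ` are compensated by a kernel whose
transform vanishes there; `ζ` has no real zeros in `(0, 1)`.

Notes on the data. `SphericalForm` lists what is used of a form: the components are unitary; the bounds
`p^{-1/8} ≤ |α_p| ≤ p^{1/8}` and `|Re μ| < 1/8`, weaker than those of Kim and Sarnak (exponent `7/64`); the functions
`L(s, Ad φ)`, `L(s, Sym⁴ φ)` and `L(s, Ad φ × Sym⁴ φ)` are entire, of polynomial growth in vertical strips, and they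
satisfy the functional equation (Gelbart, Jacquet; Kim; Jacquet, Piatetski-Shapiro, Shalika); `Sym⁴ φ` is a spherical
cusp form on `PGL_5` (Kim; Kim and Shahidi), in the sense of the structure `SphericalCuspForm` of the starting files,
which lists the properties of `L(s, π × π~)`: absolute convergence for `Re s > 1`, meromorphic continuation with a
simple pole at `s = 1`, functional equation. `Coef j l c μ` stands for the Rankin-Selberg function of `Sym^j φ` and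
`Sym^l φ`.
-/

set_option autoImplicit false

namespace Pool.Agent.Results.MP_fa98d2_nt.CommonTemperedPrime

open Pool.Agent.TH949.RES (SphericalCuspForm)

/-- the trace of the `k`-th power of the Satake parameter `(a, a⁻¹)` -/
noncomputable def tr (a : ℂ) (k : ℕ) : ℝ := (a ^ k + (a ^ k)⁻¹).re

/-- the trace of the adjoint representation in terms of the trace `t` -/
def ad (t : ℝ) : ℝ := t ^ 2 - 1

/-- the trace of the symmetric fourth power -/
def sym4 (t : ℝ) : ℝ := t ^ 4 - 3 * t ^ 2 + 1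

/-- The function `L(s) = exp ∑_p ∑_{k ≥ 1} c(p, k) / k p^{-ks}` is entire, of polynomial growth in vertical strips, and
`Ξ(s) = L(s) ∏_{a ≤ j, b ≤ l} Γ_ℝ(s + ((j - 2 a) - (l - 2 b)) μ)` is entire and equal to `Ξ(1 - s)`. -/
def Coef (j l : ℕ) (c : Nat.Primes → ℕ → ℝ) (μ : ℂ) : Prop :=
  ∃ (F Ξ : ℂ → ℂ), Differentiable ℂ F ∧ Differentiable ℂ Ξ ∧
    (∀ a b : ℝ, ∃ (C : ℝ) (A : ℕ), ∀ s : ℂ, a ≤ s.re → s.re ≤ b → ‖F s‖ ≤ C * (1 + |s.im|) ^ A) ∧
    (∀ s : ℂ, 1 < s.re → F s = Complex.exp (∑' x : Nat.Primes × ℕ,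
      ((c x.1 (x.2 + 1) / ((x.2 : ℝ) + 1) : ℝ) : ℂ) * (((x.1 : ℕ) : ℂ) ^ (-s)) ^ (x.2 + 1))) ∧
    (∀ s : ℂ, 1 < s.re → Ξ s = F s * ∏ a : Fin (j + 1), ∏ b : Fin (l + 1),
      Complex.Gammaℝ (s + ((((j : ℤ) - 2 * (a : ℕ)) - ((l : ℤ) - 2 * (b : ℕ)) : ℤ) : ℂ) * μ)) ∧
    ∀ s : ℂ, Ξ (1 - s) = Ξ s

/-- What is used of a spherical cusp form on `PGL_2` over `ℚ` with the Satake parameters `(α p, (α p)⁻¹)` and the
Langlands parameters `(μ, -μ)`. -/
structure SphericalForm (α : Nat.Primes → ℂ) (μ : ℂ) : Prop where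
  /-- the Satake parameters are nonzero -/
  ne_zero : ∀ p, α p ≠ 0
  /-- the components at the primes are unitary -/
  unitary : ∀ p, (starRingEnd ℂ) (α p) = (α p)⁻¹ ∨ (starRingEnd ℂ) (α p) = α p
  /-- a bound towards the Ramanujan conjecture -/
  bound : ∀ p : Nat.Primes, (((p : ℕ) : ℝ) ^ (1 / 8 : ℝ))⁻¹ ≤ ‖α p‖ ∧ ‖α p‖ ≤ ((p : ℕ) : ℝ) ^ (1 / 8 : ℝ)
  /-- the component at the real place is unitary -/
  unitary_real : (starRingEnd ℂ) μ = -μ ∨ (starRingEnd ℂ) μ = μ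
  /-- a bound towards the Selberg conjecture -/
  bound_real : |μ.re| < 1 / 8
  /-- the adjoint `L`-function -/
  adjoint : Coef 2 0 (fun p k => ad (tr (α p) k)) μ
  /-- the symmetric fourth power `L`-function -/
  fourth : Coef 4 0 (fun p k => sym4 (tr (α p) k)) μ
  /-- the Rankin-Selberg `L`-function of the two -/
  mixed : Coef 2 4 (fun p k => ad (tr (α p) k) * sym4 (tr (α p) k)) μ
  /-- the symmetric fourth power is a spherical cusp form on `PGL_5` -/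
  lift : SphericalCuspForm (fun p (i : Fin 5) => α p ^ (4 - 2 * ((i : ℕ) : ℤ)))
    (fun i : Fin 5 => ((4 - 2 * ((i : ℕ) : ℤ) : ℤ) : ℂ) * μ)

open Pool.Agent.Y82.GL in
/-- the trace is real and the trace of the symmetric fourth power is `sym4` -/
theorem sum_lift {α : Nat.Primes → ℂ} {μ : ℂ} (h : SphericalForm α μ) (p : Nat.Primes) (k : ℕ) :
    ∑ i : Fin 5, (α p ^ (4 - 2 * ((i : ℕ) : ℤ))) ^ k = ((sym4 (tr (α p) k) : ℝ) : ℂ) := by
  obtain ⟨z, hz⟩ : ∃ z : ℂ, z = α p ^ k := ⟨_, rfl⟩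
  have hz0 : z ≠ 0 := by rw [hz]; exact pow_ne_zero _ (h.ne_zero p)
  have hreal : ((tr (α p) k : ℝ) : ℂ) = z + z⁻¹ := by
    unfold tr
    rw [← hz]
    refine Complex.conj_eq_iff_re.1 ?_
    rw [map_add, map_inv₀]
    rcases h.unitary p with hu | hu
    · have : (starRingEnd ℂ) z = z⁻¹ := by rw [hz, map_pow, hu, inv_pow]
      rw [this, inv_inv, add_comm]
    · have : (starRingEnd ℂ) z = z := by rw [hz, map_pow, hu]
      rw [this]
  have h1 : ∀ m : ℤ, (α p ^ m) ^ k = z ^ m := by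
    intro m
    rw [hz, ← zpow_natCast (α p ^ m) k, ← zpow_mul, mul_comm, zpow_mul, zpow_natCast]
  have h2 : ((sym4 (tr (α p) k) : ℝ) : ℂ) = (z + z⁻¹) ^ 4 - 3 * (z + z⁻¹) ^ 2 + 1 := by
    rw [← hreal]
    unfold sym4
    push_cast
    ring
  rw [h2]
  simp only [Fin.sum_univ_succ, h1, Fin.val_zero, Fin.val_succ, Finset.univ_eq_empty, Finset.sum_empty]
  have e4 : z ^ (4 - 2 * ((0 : ℕ) : ℤ)) = z ^ 4 := by norm_num
  have e2 : z ^ (4 - 2 * (((0 : ℕ) + 1 : ℕ) : ℤ)) = z ^ 2 := by norm_num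
  have e0 : z ^ (4 - 2 * (((0 : ℕ) + 1 + 1 : ℕ) : ℤ)) = 1 := by norm_num
  have f2 : z ^ (4 - 2 * (((0 : ℕ) + 1 + 1 + 1 : ℕ) : ℤ)) = (z ^ 2)⁻¹ := by
    norm_num
  have f4 : z ^ (4 - 2 * (((0 : ℕ) + 1 + 1 + 1 + 1 : ℕ) : ℤ)) = (z ^ 4)⁻¹ := by
    norm_num
  rw [e4, e2, e0, f2, f4]
  field_simp
  ring

/-- the size of the coefficients -/
theorem coef_le {α : Nat.Primes → ℂ} {μ : ℂ} (h : SphericalForm α μ) (p : Nat.Primes) (k : ℕ) :
    |ad (tr (α p) k)| ≤ 1000 * ((p : ℕ) : ℝ) ^ k ∧ |sym4 (tr (α p) k)| ≤ 1000 * ((p : ℕ) : ℝ) ^ k ∧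
    |ad (tr (α p) k) * sym4 (tr (α p) k)| ≤ 1000 * ((p : ℕ) : ℝ) ^ k ∧
    |sym4 (tr (α p) k) ^ 2 - 1| ≤ 1000 * ((p : ℕ) : ℝ) ^ k := by
  have hp1 : (1 : ℝ) ≤ ((p : ℕ) : ℝ) := by exact_mod_cast p.2.one_lt.le
  have hp0 : (0 : ℝ) < ((p : ℕ) : ℝ) := by linarith
  have hz : 0 < ((p : ℕ) : ℝ) ^ (1 / 8 : ℝ) := Real.rpow_pos_of_pos hp0 _
  have h1 : 1 ≤ ((p : ℕ) : ℝ) ^ (1 / 8 : ℝ) := Real.one_le_rpow hp1 (by norm_num)
  obtain ⟨y, hy⟩ : ∃ y : ℝ, y = (((p : ℕ) : ℝ) ^ (1 / 8 : ℝ)) ^ k := ⟨_, rfl⟩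
  have hy1 : 1 ≤ y := by rw [hy]; exact one_le_pow₀ h1
  have e : y ^ 8 = ((p : ℕ) : ℝ) ^ k := by
    rw [hy, ← pow_mul, mul_comm, pow_mul]
    congr 1
    rw [← Real.rpow_natCast, ← Real.rpow_mul hp0.le]
    norm_num
  have ht : |tr (α p) k| ≤ 2 * y := by
    rw [hy]
    exact Pool.Agent.Y82.GL.tr_le hz (h.bound p).1 (h.bound p).2 k
  obtain ⟨-, g2, -, g4, -, -, -, g24⟩ := Pool.Agent.Y82.GL.growth hy1 ht ht
  rw [e] at g2 g4 g24
  refine ⟨g2, g4, g24, ?_⟩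
  rw [← e]
  set t := tr (α p) k
  have hy8 : 1 ≤ y ^ 8 := one_le_pow₀ hy1
  have h4 : |sym4 t| ≤ 29 * y ^ 4 := by
    have h1 : |t| ^ 2 ≤ (2 * y) ^ 2 := pow_le_pow_left₀ (abs_nonneg _) ht 2
    have h2 : |t| ^ 4 ≤ (2 * y) ^ 4 := pow_le_pow_left₀ (abs_nonneg _) ht 4
    have h3 := abs_add_le (t ^ 4 - 3 * t ^ 2) 1
    have h4 := abs_sub (t ^ 4) (3 * t ^ 2)
    rw [abs_mul, abs_pow, abs_pow] at h4
    rw [abs_one] at h3
    have h5 : y ^ 2 ≤ y ^ 4 := pow_le_pow_right₀ hy1 (by norm_num)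
    have h6 : 1 ≤ y ^ 4 := one_le_pow₀ hy1
    have h7 : |(3 : ℝ)| = 3 := by norm_num
    rw [h7] at h4
    unfold sym4
    nlinarith
  have h5 : |sym4 t| ^ 2 ≤ (29 * y ^ 4) ^ 2 := pow_le_pow_left₀ (abs_nonneg _) h4 2
  rw [sq_abs] at h5
  have h6 : (29 * y ^ 4) ^ 2 = 841 * y ^ 8 := by ring
  rw [h6] at h5
  rw [abs_le]
  constructor
  · nlinarith [sq_nonneg (sym4 t)]
  · linarith

/-- a form which is not tempered has large traces -/
theorem large {α : Nat.Primes → ℂ} {μ : ℂ} (h : SphericalForm α μ) {p : Nat.Primes} (hp : ‖α p‖ ≠ 1) (k : ℕ) :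
    3 ≤ ad (tr (α p) k) ∧ 5 ≤ sym4 (tr (α p) k) := by
  have h1 : 2 ≤ |tr (α p) k| := by
    by_contra hcon
    push Not at hcon
    exact hp (Pool.Agent.Y82.GL.temp (h.ne_zero p) (h.unitary p) hcon)
  have h2 : 4 ≤ tr (α p) k ^ 2 := by
    rw [← sq_abs]
    nlinarith
  unfold ad sym4
  constructor
  · linarith
  · nlinarith

open Pool.Agent.Y82.GL in
/-- **Small primes at which almost all members of a family of spherical cusp forms on `PGL_2` are tempered.** -/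
theorem result {r : ℕ} (hr : 1 ≤ r) (a b c : ℕ) (hbc : 0 < b + c) {ε : ℝ} (hε : 0 < ε) :
    ∃ A : ℝ, 0 < A ∧ ∀ (α : Fin r → Nat.Primes → ℂ) (μ : Fin r → ℂ), (∀ i, SphericalForm (α i) (μ i)) →
      ∃ (p : Nat.Primes) (k : ℕ), 1 ≤ k ∧
        ((p : ℕ) : ℝ) ^ k ≤ A * (∏ i, (1 + ‖μ i‖)) ^
          (((6 * b ^ 2 + 4 * a * b + 8 * a * c + 24 * b * c + 20 * c ^ 2 : ℕ) : ℝ) * (1 + ε)) ∧
        (a + 3 * b + 5 * c) ^ 2 * {i | ‖α i p‖ ≠ 1}.ncard < (a ^ 2 + b ^ 2 + c ^ 2) * r := by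
  classical
  set E : ℕ := 6 * b ^ 2 + 4 * a * b + 8 * a * c + 24 * b * c + 20 * c ^ 2 with hE
  set e2 : ℕ := b ^ 2 + 2 * a * b with he2
  set e4 : ℕ := b ^ 2 + 2 * a * c with he4
  set e24 : ℕ := 2 * b * c with he24
  obtain ⟨A, hA0, hA⟩ := landD
    (r * (e2 * 0 + e4 * 0 + e24 * 0 + c ^ 2 * 1))
    (r * (e2 * ((2 + 1) * (0 + 1)) + e4 * ((4 + 1) * (0 + 1)) + e24 * ((2 + 1) * (4 + 1)) + c ^ 2 * (5 ^ 2 - 1)))
    (B := r * (e2 * 1000 + e4 * 1000 + e24 * 1000 + (c ^ 2 : ℕ) * 1000)) (by positivity) hε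
  refine ⟨A * (((8 : ℝ) ^ E) ^ r) ^ (1 + ε), by positivity, fun α μ h => ?_⟩
  have g2 := fun i => goodD_of (j := 2) (l := 0) ⟨1, rfl⟩ ⟨0, rfl⟩ (by norm_num) (h i).unitary_real (h i).bound_real
    (fun p k => (coef_le (h i) p k).1) (h i).adjoint
  have g4 := fun i => goodD_of (j := 4) (l := 0) ⟨2, rfl⟩ ⟨0, rfl⟩ (by norm_num) (h i).unitary_real (h i).bound_real
    (fun p k => (coef_le (h i) p k).2.1) (h i).fourth
  have g24 := fun i => goodD_of (j := 2) (l := 4) ⟨1, rfl⟩ ⟨2, rfl⟩ (by norm_num) (h i).unitary_real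
    (h i).bound_real (fun p k => (coef_le (h i) p k).2.2.1) (h i).mixed
  have sq5 : ∀ i (p : Nat.Primes) (k : ℕ), ‖∑ j : Fin 5, (α i p ^ (4 - 2 * ((j : ℕ) : ℤ))) ^ k‖ ^ 2 =
      sym4 (tr (α i p) k) ^ 2 := by
    intro i p k
    rw [sum_lift (h i) p k, Complex.norm_real, Real.norm_eq_abs, sq_abs]
  have g44 := fun i => goodD_sq (n := 5) (by norm_num) (h i).lift
    (by
      intro j
      have h1 := (h i).bound_real
      have h2 : |((4 - 2 * ((j : ℕ) : ℤ) : ℤ) : ℝ)| ≤ 4 := by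
        have h3 := j.is_lt
        have : |(4 - 2 * ((j : ℕ) : ℤ) : ℤ)| ≤ 4 := by rw [abs_le]; omega
        exact_mod_cast this
      have h3 : (((4 - 2 * ((j : ℕ) : ℤ) : ℤ) : ℂ) * μ i).re = ((4 - 2 * ((j : ℕ) : ℤ) : ℤ) : ℝ) * (μ i).re := by
        rw [show ((4 - 2 * ((j : ℕ) : ℤ) : ℤ) : ℂ) = ((((4 - 2 * ((j : ℕ) : ℤ) : ℤ) : ℝ)) : ℂ) by push_cast; rfl,
          Complex.re_ofReal_mul]
      rw [h3, abs_mul]
      have := mul_le_mul_of_nonneg_right h2 (abs_nonneg (μ i).re)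
      linarith)
    (B := 1000) (fun p k => by
      rw [sq5]
      exact (coef_le (h i) p k).2.2.2)
  have g := GoodD.prod r _ _ fun i =>
    ((((g2 i).pow e2).mul ((g4 i).pow e4)).mul ((g24 i).pow e24)).mul ((g44 i).pow (c ^ 2))
  have hz : r ≠ 0 ∧ ((((e2 ≠ 0 ∧ True) ∨ (e4 ≠ 0 ∧ True)) ∨ (e24 ≠ 0 ∧ True)) ∨ (c ^ 2 ≠ 0 ∧ True)) := by
    refine ⟨by omega, ?_⟩
    rcases Nat.eq_zero_or_pos c with hc | hc
    · have hb : 0 < b := by omega
      left; left; left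
      refine ⟨?_, trivial⟩
      rw [he2]
      positivity
    · right
      exact ⟨by positivity, trivial⟩
  obtain ⟨⟨⟨p, hp⟩, k⟩, hx, hle⟩ := hA _ _ (g.imp fun _ => hz)
  simp only at hx hle
  refine ⟨p, k + 1, by omega, hle.trans ?_, ?_⟩
  · -- the bound
    have hpart : ∀ i, (∏ a : Fin (2 + 1), ∏ b : Fin (0 + 1), (1 + ‖(wz 2 0 a b : ℂ) * μ i‖)) ^ e2 *
        (∏ a : Fin (4 + 1), ∏ b : Fin (0 + 1), (1 + ‖(wz 4 0 a b : ℂ) * μ i‖)) ^ e4 *
        (∏ a : Fin (2 + 1), ∏ b : Fin (4 + 1), (1 + ‖(wz 2 4 a b : ℂ) * μ i‖)) ^ e24 *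
        (∏ j : Fin 5, ∏ l : Fin 5, (1 + ‖((4 - 2 * ((j : ℕ) : ℤ) : ℤ) : ℂ) * μ i -
          ((4 - 2 * ((l : ℕ) : ℤ) : ℤ) : ℂ) * μ i‖)) ^ (c ^ 2) ≤ (8 * (1 + ‖μ i‖)) ^ E := by
      intro i
      have h44 : ∏ j : Fin 5, ∏ l : Fin 5, (1 + ‖((4 - 2 * ((j : ℕ) : ℤ) : ℤ) : ℂ) * μ i -
          ((4 - 2 * ((l : ℕ) : ℤ) : ℤ) : ℂ) * μ i‖) =
          ∏ a : Fin (4 + 1), ∏ b : Fin (4 + 1), (1 + ‖(wz 4 4 a b : ℂ) * μ i‖) := by
        refine Finset.prod_congr rfl fun x _ => Finset.prod_congr rfl fun y _ => ?_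
        rw [← sub_mul]
        congr 3
        unfold wz
        push_cast
        ring
      rw [h44]
      have n2 : 0 ≤ ∏ a : Fin (2 + 1), ∏ b : Fin (0 + 1), (1 + ‖(wz 2 0 a b : ℂ) * μ i‖) := by positivity
      have n4 : 0 ≤ ∏ a : Fin (4 + 1), ∏ b : Fin (0 + 1), (1 + ‖(wz 4 0 a b : ℂ) * μ i‖) := by positivity
      have n24 : 0 ≤ ∏ a : Fin (2 + 1), ∏ b : Fin (4 + 1), (1 + ‖(wz 2 4 a b : ℂ) * μ i‖) := by positivity
      have n44 : 0 ≤ ∏ a : Fin (4 + 1), ∏ b : Fin (4 + 1), (1 + ‖(wz 4 4 a b : ℂ) * μ i‖) := by positivity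
      have s2 := pow_le_pow_left₀ n2 (size20 (μ i)) e2
      have s4 := pow_le_pow_left₀ n4 (size40 (μ i)) e4
      have s24 := pow_le_pow_left₀ n24 (size24 (μ i)) e24
      have s44 := pow_le_pow_left₀ n44 (size44 (μ i)) (c ^ 2)
      refine (mul_le_mul (mul_le_mul (mul_le_mul s2 s4 (by positivity) (by positivity)) s24 (by positivity)
        (by positivity)) s44 (by positivity) (by positivity)).trans_eq ?_
      rw [← pow_mul, ← pow_mul, ← pow_mul, ← pow_mul, ← pow_add, ← pow_add, ← pow_add]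
      congr 1
      rw [hE, he2, he4, he24]
      ring
    have hprod : (∏ i, ((∏ a : Fin (2 + 1), ∏ b : Fin (0 + 1), (1 + ‖(wz 2 0 a b : ℂ) * μ i‖)) ^ e2 *
        (∏ a : Fin (4 + 1), ∏ b : Fin (0 + 1), (1 + ‖(wz 4 0 a b : ℂ) * μ i‖)) ^ e4 *
        (∏ a : Fin (2 + 1), ∏ b : Fin (4 + 1), (1 + ‖(wz 2 4 a b : ℂ) * μ i‖)) ^ e24 *
        (∏ j : Fin 5, ∏ l : Fin 5, (1 + ‖((4 - 2 * ((j : ℕ) : ℤ) : ℤ) : ℂ) * μ i -
          ((4 - 2 * ((l : ℕ) : ℤ) : ℤ) : ℂ) * μ i‖)) ^ (c ^ 2))) ≤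
        ((8 : ℝ) ^ E) ^ r * (∏ i, (1 + ‖μ i‖)) ^ E := by
      refine (Finset.prod_le_prod (fun i _ => by positivity) fun i _ => hpart i).trans_eq ?_
      simp only [mul_pow]
      rw [Finset.prod_mul_distrib, Finset.prod_const, Finset.card_univ, Fintype.card_fin, Finset.prod_pow]
    have hM : 0 ≤ ∏ i, (1 + ‖μ i‖) := Finset.prod_nonneg fun i _ => by positivity
    calc _ ≤ A * (((8 : ℝ) ^ E) ^ r * (∏ i, (1 + ‖μ i‖)) ^ E) ^ (1 + ε) := by
          refine mul_le_mul_of_nonneg_left (Real.rpow_le_rpow ?_ hprod (by linarith)) hA0.le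
          exact Finset.prod_nonneg fun i _ => by positivity
      _ = _ := by
          rw [Real.mul_rpow (by positivity) (by positivity), ← Real.rpow_natCast (∏ i, (1 + ‖μ i‖)) E,
            ← Real.rpow_mul hM]
          ring
  · -- the count
    have hk : (0 : ℝ) < (k : ℝ) + 1 := by positivity
    have key : ∑ i, (((a : ℝ) + b * ad (tr (α i p) (k + 1)) + c * sym4 (tr (α i p) (k + 1))) ^ 2 -
        (a ^ 2 + b ^ 2 + c ^ 2)) < 0 := by
      have h1 : ∑ i, (((a : ℝ) + b * ad (tr (α i p) (k + 1)) + c * sym4 (tr (α i p) (k + 1))) ^ 2 -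
          (a ^ 2 + b ^ 2 + c ^ 2)) / ((k : ℝ) + 1) < 0 := by
        refine lt_of_le_of_lt (le_of_eq ?_) hx
        refine Finset.sum_congr rfl fun i _ => ?_
        rw [sq5]
        simp only [he2, he4, he24, ad, sym4]
        push_cast
        field_simp
        ring
      rw [← Finset.sum_div, div_lt_iff₀ hk, zero_mul] at h1
      exact h1
    rw [Finset.sum_sub_distrib, Finset.sum_const, Finset.card_univ, Fintype.card_fin, nsmul_eq_mul] at key
    have h2 : ({i | ‖α i p‖ ≠ 1} : Set (Fin r)).ncard = (Finset.univ.filter fun i : Fin r => ‖α i p‖ ≠ 1).card := by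
      rw [← Set.ncard_coe_finset]
      congr 1
      ext i
      simp
    have h3 : ((Finset.univ.filter fun i : Fin r => ‖α i p‖ ≠ 1).card : ℝ) * ((a : ℝ) + 3 * b + 5 * c) ^ 2 ≤
        ∑ i, ((a : ℝ) + b * ad (tr (α i p) (k + 1)) + c * sym4 (tr (α i p) (k + 1))) ^ 2 := by
      rw [← nsmul_eq_mul, ← Finset.sum_const]
      refine le_trans ?_ (Finset.sum_le_sum_of_subset_of_nonneg
        (Finset.filter_subset (fun i : Fin r => ‖α i p‖ ≠ 1) Finset.univ) fun i _ _ => sq_nonneg _)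
      refine Finset.sum_le_sum fun i hi => ?_
      obtain ⟨h4, h5⟩ := large (h i) (Finset.mem_filter.1 hi).2 (k + 1)
      have hb : (0 : ℝ) ≤ b := Nat.cast_nonneg _
      have hc : (0 : ℝ) ≤ c := Nat.cast_nonneg _
      refine pow_le_pow_left₀ (by positivity) ?_ 2
      nlinarith [mul_le_mul_of_nonneg_left h4 hb, mul_le_mul_of_nonneg_left h5 hc]
    rw [h2]
    have h4 : (((a + 3 * b + 5 * c) ^ 2 * (Finset.univ.filter fun i : Fin r => ‖α i p‖ ≠ 1).card : ℕ) : ℝ) <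
        (((a ^ 2 + b ^ 2 + c ^ 2) * r : ℕ) : ℝ) := by
      push_cast
      nlinarith
    exact_mod_cast h4

end Pool.Agent.Results.MP_fa98d2_nt.CommonTemperedPrime
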