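import Mathlib
import Pool.Agent.Y816.GL3R.End

/-!
# Spherical cusp forms on `PGL_3` with few tempered primes: rigidity, and a quasi Riemann hypothesis for all twists

Let `φ` be a spherical cusp form on `PGL_3` over `ℚ`, generating `π`, with Satake parameters `α_{i,p}`, and let
`λ(p) = ∑_i α_{i,p}`. Suppose that the conjecture fails so badly that for some `c < 1` and some `C` there are at most
`C x^c` primes `p ≤ x` at which `π_p` is tempered, for all `x ≥ 1`. We show:

* `∑_p ∑_i (|α_{i,p}| - 1)² p^{-σ}` converges for all `σ > c`: almost all violations are small; moreover, for suitable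
  cube roots of unity `ω(p)`, `∑_p |λ(p) + ω(p)|² p^{-σ}` converges for all `σ > c`: for almost all `p`, `λ(p)` is near
  `-1`, `-e^{2πi/3}` or `-e^{-2πi/3}`;
* `π` is not self-dual;
* for **every** Dirichlet character `χ`, the functions `L(s, π × χ)` and `L(s, π × π × χ)` are entire and have **no
  zeros with real part `> (1 + c) / 2 < 1`** (a quasi Riemann hypothesis, with one strip for all twists), and
  `L(s, π × π~ × χ) / L(s, χ)` is holomorphic without zeros for `Re s > c`.

So a zero of `L(s, π × χ)` or of `L(s, π × π × χ)` with real part `β`, for **one** character `χ`, shows that the number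
of the tempered primes `p ≤ x` is not `O(x^c)` for any `c < 2 β - 1`; and the same holds for all `c < 1` if infinitely
many primes have, say, `max_i |α_{i,p}| ≥ 2` and the sum of `1 / p` over them diverges.

(For `χ` modulo `q` all the functions are without the Euler factors at the primes dividing `q`; for primitive `χ` these
factors are `1`, as `π` is unramified.) Known on the number of the tempered primes: `c ≥ 9/17`
(`SmallEigenvaluesControl`), and all zeros and poles of `L(s, π × π~) / ζ(s)` have real part `≤ c` (`EveryScale`). These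
results do not involve `L(s, π × χ)`, and say nothing on the size of the violations at almost all primes.

The structure `CuspFormPGL3` lists what is used of `φ`: the facts in `SphericalCuspForm` of this problem's earlier files
(unitarity, and the absolute convergence, continuation and functional equation of `L(s, π × π~)`), the
trivial central character, that `L(s, π × χ)` is entire and not zero at `s = 1` (Godement, Jacquet, Shalika), and that
`(s - 1) L(s, π × π × χ)` is entire (Jacquet, Piatetski-Shapiro, Shalika).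

The proof: a nontempered `p` has parameters `(X u, u / X, u⁻²)`, `X > 1`, `|u| = 1`; so, with `T = X + 1/X` and
`r = Re u³`, `D = |λ|² - 1 = T (T - 2) + 2 T (1 + r)` is at least `∑_i (|α_i| - 1)²` and at least `|λ + ω|² / 34` for some
`ω³ = 1`, and `|λ² + conj λ|² ≤ 8 D (D + 1)`; similarly for the powers `A_p^k` of the parameter. Landau's lemma
for `L(s, π × π~) / ζ(s)` shows that `∑_p ∑_k (|tr A_p^k|² - 1) p^{-kσ} / k` converges absolutely for `σ > c`, and by
Cauchy's inequality `∑_p ∑_k |(tr A_p^k)² + conj tr A_p^k| p^{-kσ} / k` converges for `σ > (1 + c) / 2`: this is the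
series for the logarithm of `L(s, π × π × χ) L(s, π~ × χ)`.
-/

set_option autoImplicit false

namespace Pool.Agent.Results.MP_fa98d2_nt.FewTemperedPGL3

open Pool.Agent.Y816.GL3R

/-- **Spherical cusp forms on `PGL_3` with few tempered primes.** -/
theorem result {α : Nat.Primes → Fin 3 → ℂ} {μ : Fin 3 → ℂ} (h : CuspFormPGL3 α μ) {c : ℝ} (hc1 : c < 1)
    (hN : ∃ C : ℝ, ∀ x : ℝ, 1 ≤ x →
      (({p : Nat.Primes | ((p : ℕ) : ℝ) ≤ x ∧ ∀ i, ‖α p i‖ = 1}.ncard : ℕ) : ℝ) ≤ C * x ^ c) :
    (∀ σ : ℝ, c < σ → Summable fun p : Nat.Primes => (∑ i, (‖α p i‖ - 1) ^ 2) * ((p : ℕ) : ℝ) ^ (-σ)) ∧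
    (∃ ω : Nat.Primes → ℂ, (∀ p, ω p ^ 3 = 1) ∧
      ∀ σ : ℝ, c < σ → Summable fun p : Nat.Primes => ‖∑ i, α p i + ω p‖ ^ 2 * ((p : ℕ) : ℝ) ^ (-σ)) ∧
    (¬ ∀ p, ∃ τ : Equiv.Perm (Fin 3), ∀ i, α p (τ i) = (α p i)⁻¹) ∧
    ∀ (q : ℕ) [NeZero q] (χ : DirichletCharacter ℂ q),
      (∃ E : ℂ → ℂ, Differentiable ℂ E ∧ (∀ s : ℂ, 1 < s.re → E s = Complex.exp (logE χ (tr α) s)) ∧
        ∀ s : ℂ, (1 + c) / 2 < s.re → E s ≠ 0) ∧
      (∃ H : ℂ → ℂ, Differentiable ℂ H ∧
        (∀ s : ℂ, 1 < s.re → H s = Complex.exp (logE χ (fun p k => tr α p k ^ 2) s)) ∧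
        ∀ s : ℂ, (1 + c) / 2 < s.re → H s ≠ 0) ∧
      ∃ F : ℂ → ℂ, DifferentiableOn ℂ F {s | c < s.re} ∧ (∀ s : ℂ, c < s.re → F s ≠ 0) ∧
        ∀ s : ℂ, 1 < s.re → F s * DirichletCharacter.LFunction χ s =
          Complex.exp (logE χ (fun p k => ((‖tr α p k‖ ^ 2 : ℝ) : ℂ)) s) := by
  have h1st : ∀ p, ¬ Tmp α p → ∑ i, (‖α p i‖ - 1) ^ 2 ≤ ‖∑ i, α p i‖ ^ 2 - 1 := fun p hp => (local2 h hp).1
  obtain ⟨ω, hω1, hω2, hω3⟩ := roots h
  obtain ⟨C, hC⟩ := hN
  obtain ⟨h9, hd, hT, G, hG, hG1, hG2⟩ := landau3 h (of_count hC)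
  refine ⟨fun σ hσ => ?_, ⟨ω, hω1, fun σ hσ => ?_⟩, not_selfdual h hc1 hd hT hG hG1 hG2, ?_⟩
  · refine summable_first (C := 1) zero_le_one (fun p => Finset.sum_nonneg fun i _ => sq_nonneg _)
      (fun p hp => ?_) (fun p hp => ?_) hd hT hσ
    · rw [tmp_sum hp]
      exact zero_le_one
    · rw [one_mul]
      exact h1st p hp
  · refine summable_first (C := 34) (by norm_num) (fun p => sq_nonneg _)
      (fun p hp => (hω2 p hp).trans (by norm_num)) (fun p hp => hω3 p hp) hd hT hσ
  · intro q _ χ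
    obtain ⟨E, H, -, hH, -, hH1, hH2⟩ := nonvanishing h χ hc1 hd hT
    exact ⟨nonvanishing' h χ hc1 hd hT, ⟨H, hH, hH1, fun s hs => (hH2 s hs).2⟩,
      adjoint h.toSphericalCuspForm χ hd⟩

end Pool.Agent.Results.MP_fa98d2_nt.FewTemperedPGL3
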