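import Mathlib
import Pool.Agent.Y464.RP.Core

/-!
# Spherical cusp forms on `PGL_2`: at almost all primes at least 90 percent of a family are tempered

Let `φ_1, …, φ_k` be spherical cusp forms on `PGL_2` over `ℚ` such that the cuspidal representations
`Sym⁴ φ_1, …, Sym⁴ φ_k` of `PGL_5` are pairwise not isomorphic, and let `ε > 0`. We show: in EVERY residue class
`a` modulo `q`, `(a, q) = 1`, the set of the primes `p` at which at least `(1/10 + ε) k` of the `k` forms are not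
tempered has relative upper Dirichlet density at most

  `153 / (153 + 5000 ε² k)`.

So for an infinite family the conjecture holds, outside a set of primes whose density tends to `0` as `k → ∞`, for at
least `(9/10 - ε) k` of the first `k` members of the family simultaneously. Nothing is assumed on the family: no
density theorem or trace formula is used, the Laplace eigenvalues may grow arbitrarily fast.

Known before: for a single form `φ` the primes at which `φ` is not tempered have upper density at most `1/35` (Kim and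
Shahidi 2002), so by summation the mean number of the not tempered members is at most `k / 35`; this leaves open that
all the `k` forms fail at the same primes, a set of density `1/35` for all `k`.

The structure `SphericalFamily` lists what is used of the forms: the components are unitary; the Rankin-Selberg series of
`Sym² φ_i` and `Sym⁴ φ_i` converge absolutely for `s > 1` (Gelbart and Jacquet, Kim, Jacquet and Shalika); the functions
`L(s, Sym^m φ_i × Sym^l φ_j × χ)`, `m, l ∈ {0, 2, 4}`, have no zero and no pole at `s = 1`, except for a simple pole if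
`χ` is principal and `Sym^m φ_i ≅ Sym^l φ_j`, that is `m = l = 0`, or `m = l` and `i = j` (Shahidi; as `φ_i` is
unramified everywhere, `Sym^m φ_i × χ` is not isomorphic to `Sym^l φ_j` for nonprincipal `χ`, and `Sym² φ_i` and
`Sym⁴ φ_i` are cuspidal by Gelbart and Jacquet, and Kim and Shahidi).

The proof: the Chebyshev inequality for `T(p) = ∑_i (3/20 tr Sym² + 9/100 tr Sym⁴)(φ_i, p)`; by the Rankin-Selberg
theory the summands are pairwise orthogonal with mean zero, their variance is `153/5000`, and, if `λ` is the Hecke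
eigenvalue, a summand equals `((3 λ² - 2) / 10)² - 1/10`, which is `≥ -1/10`, and `≥ 9/10` if `|λ| ≥ 2`. Since only the
first four moments of the `λ_{φ_i}(p)`, `i ≤ k`, are controlled at almost all `p`, and the largest mass outside `(-2, 2)`
of a probability measure with the first four moments of the Sato-Tate measure is `1/10`, this is the natural limit of
what follows from the lifts `Sym²` and `Sym⁴`.
-/

set_option autoImplicit false

open Filter Topology

namespace Pool.Agent.Results.MP_fa98d2_nt.NinetyPercentTempered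

/-- The trace of `Sym^m` of the `n`-th power of the Satake class `diag(a, 1/a)`. -/
noncomputable def symTr (m : ℕ) (a : ℂ) (n : ℕ) : ℂ :=
  ∑ j ∈ Finset.range (m + 1), (a ^ n) ^ (m - j) * ((a ^ n)⁻¹) ^ j

/-- `∑_p ∑_{n ≥ 1} χ(p^n) tr Sym^m(φ, p^n) conj(tr Sym^l(φ', p^n)) p^(-ns) / n`, the logarithm of
`L(s, Sym^m φ × Sym^l φ' × χ)`, where `a` and `b` are the Satake parameters of `φ` and `φ'`; the pair `(p, n)` stands
for the prime power `p^(n+1)`. -/
noncomputable def logL {q : ℕ} (χ : DirichletCharacter ℂ q) (m l : ℕ) (a b : Nat.Primes → ℂ) (s : ℝ) : ℂ :=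
  ∑' x : Nat.Primes × ℕ, χ (((x.1 : ℕ) : ZMod q) ^ (x.2 + 1)) *
    (symTr m (a x.1) (x.2 + 1) * (starRingEnd ℂ) (symTr l (b x.1) (x.2 + 1))) *
    (((((x.1 : ℕ) : ℝ) ^ (-s)) ^ (x.2 + 1) / ((x.2 : ℝ) + 1) : ℝ) : ℂ)

/-- What is used of spherical cusp forms `φ_1, …, φ_k` on `PGL_2` with pairwise not isomorphic `Sym⁴ φ_i`;
`diag(α i p, 1 / α i p)` is the Satake class of `φ_i` at `p`. -/
structure SphericalFamily {k : ℕ} (α : Fin k → Nat.Primes → ℂ) : Prop where
  /-- the Satake parameters are nonzero -/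
  ne_zero : ∀ i p, α i p ≠ 0
  /-- the components are unitary -/
  unitary : ∀ i p, (starRingEnd ℂ) (α i p) = α i p ∨ (starRingEnd ℂ) (α i p) = (α i p)⁻¹
  /-- absolute convergence of `L(s, Sym^m φ_i × Sym^m φ_i)`, `m = 2, 4`, for `s > 1` -/
  conv : ∀ i, ∀ m ∈ ({2, 4} : Finset ℕ), ∀ s : ℝ, 1 < s → Summable fun x : Nat.Primes × ℕ =>
    ‖symTr m (α i x.1) (x.2 + 1)‖ ^ 2 * ((((x.1 : ℕ) : ℝ) ^ (-s)) ^ (x.2 + 1) / ((x.2 : ℝ) + 1))
  /-- the simple poles at `s = 1` -/
  pole : ∀ i, ∀ m ∈ ({0, 2, 4} : Finset ℕ), ∀ (q : ℕ) [NeZero q], ∃ C : ℝ, ∀ᶠ s : ℝ in 𝓝[>] 1,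
    ‖logL (1 : DirichletCharacter ℂ q) m m (α i) (α i) s - (Real.log (1 / (s - 1)) : ℂ)‖ ≤ C
  /-- no zero and no pole at `s = 1` in the other cases -/
  regular : ∀ i j, ∀ m ∈ ({0, 2, 4} : Finset ℕ), ∀ l ∈ ({0, 2, 4} : Finset ℕ), ∀ (q : ℕ) [NeZero q]
    (χ : DirichletCharacter ℂ q), ¬ (χ = 1 ∧ m = l ∧ (m = 0 ∨ i = j)) →
    ∃ C : ℝ, ∀ᶠ s : ℝ in 𝓝[>] 1, ‖logL χ m l (α i) (α j) s‖ ≤ C

/-- the number of the forms which are not tempered at `p` -/
noncomputable def violations {k : ℕ} (α : Fin k → Nat.Primes → ℂ) (p : Nat.Primes) : ℕ :=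
  {i | ‖α i p‖ ≠ 1}.ncard

section proof

open Pool.Agent.Y464.RP

theorem symTr_zero (a : ℂ) (n : ℕ) : symTr 0 a n = 1 := by simp [symTr]

theorem symTr_two (a : ℂ) (ha : a ≠ 0) : symTr 2 a 1 = (a + a⁻¹) ^ 2 - 1 := by
  simp only [symTr, Finset.sum_range_succ, Finset.sum_range_zero]
  field_simp
  ring

theorem symTr_four (a : ℂ) (ha : a ≠ 0) : symTr 4 a 1 = (a + a⁻¹) ^ 4 - 3 * (a + a⁻¹) ^ 2 + 1 := by
  simp only [symTr, Finset.sum_range_succ, Finset.sum_range_zero]
  field_simp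
  ring

/-- one form at one prime -/
theorem local_bound (a : ℂ) (ha : a ≠ 0)
    (hu : (starRingEnd ℂ) a = a ∨ (starRingEnd ℂ) a = a⁻¹) :
    (if ‖a‖ ≠ 1 then (1 : ℝ) else 0) - 1 / 10 ≤
      ((3 / 20 : ℝ) * symTr 2 a 1 + (9 / 100 : ℝ) * symTr 4 a 1 : ℂ).re := by
  have hreal : ∃ r : ℝ, a + a⁻¹ = r := by
    refine ⟨(a + a⁻¹).re, ?_⟩
    have h1 : (starRingEnd ℂ) (a + a⁻¹) = a + a⁻¹ := by
      rw [map_add, map_inv₀]
      rcases hu with h | h
      · rw [h]
      · rw [h, inv_inv, add_comm]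
    exact (Complex.conj_eq_iff_re.1 h1).symm
  obtain ⟨r, hr⟩ := hreal
  rw [symTr_two a ha, symTr_four a ha, hr]
  have e : ((3 / 20 : ℝ) * ((r : ℂ) ^ 2 - 1) + (9 / 100 : ℝ) * ((r : ℂ) ^ 4 - 3 * (r : ℂ) ^ 2 + 1) : ℂ) =
      ((((3 * r ^ 2 - 2) / 10) ^ 2 - 1 / 10 : ℝ) : ℂ) := by
    push_cast
    ring
  rw [e, Complex.ofReal_re]
  split_ifs with h
  · -- not tempered: `a` is real
    have hreal : (starRingEnd ℂ) a = a := by
      rcases hu with h1 | h1
      · exact h1
      · exfalso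
        apply h
        have h2 : ‖a‖ * ‖a‖ = 1 := by
          have h3 : ‖(starRingEnd ℂ) a‖ = ‖a⁻¹‖ := by rw [h1]
          rw [Complex.norm_conj, norm_inv] at h3
          have h4 : ‖a‖ ≠ 0 := norm_ne_zero_iff.2 ha
          calc ‖a‖ * ‖a‖ = ‖a‖ * ‖a‖⁻¹ := by rw [← h3]
            _ = 1 := mul_inv_cancel₀ h4
        have h5 : 0 ≤ ‖a‖ := norm_nonneg a
        nlinarith
    obtain ⟨t, ht⟩ : ∃ t : ℝ, a = t := ⟨a.re, (Complex.conj_eq_iff_re.1 hreal).symm⟩
    have ht0 : t ≠ 0 := by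
      rintro rfl
      exact ha (by rw [ht]; simp)
    have hrt : r = t + t⁻¹ := by
      have : (r : ℂ) = ((t + t⁻¹ : ℝ) : ℂ) := by rw [← hr, ht]; push_cast; ring
      exact_mod_cast this
    have h4 : 4 ≤ r ^ 2 := by
      have : r ^ 2 = 4 + (t - t⁻¹) ^ 2 := by
        rw [hrt]
        field_simp
        ring
      rw [this]
      linarith [sq_nonneg (t - t⁻¹)]
    have h6 : 1 ≤ ((3 * r ^ 2 - 2) / 10) := by linarith
    nlinarith
  · have := sq_nonneg ((3 * r ^ 2 - 2) / 10)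
    linarith

/-- degrees -/
def deg {k : ℕ} : Option (Fin k × Bool) → ℕ
  | none => 0
  | some (_, false) => 2
  | some (_, true) => 4

theorem deg_mem {k : ℕ} (u : Option (Fin k × Bool)) : deg u ∈ ({0, 2, 4} : Finset ℕ) := by
  rcases u with _ | ⟨i, _ | _⟩ <;> simp [deg]

/-- the form -/
def idx {k : ℕ} (i₀ : Fin k) : Option (Fin k × Bool) → Fin k
  | none => i₀
  | some (i, _) => i

/-- weights -/
noncomputable def wt (s : ℝ) (x : Nat.Primes × ℕ) : ℝ :=
  (((x.1 : ℕ) : ℝ) ^ (-s)) ^ (x.2 + 1) / ((x.2 : ℝ) + 1)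

theorem wt_nonneg (s : ℝ) (x : Nat.Primes × ℕ) : 0 ≤ wt s x := by
  unfold wt
  positivity

theorem summable_wt (s : ℝ) (hs : 1 < s) : Summable fun x : Nat.Primes × ℕ => wt s x := by
  have h1 : Summable fun p : Nat.Primes => ((p : ℕ) : ℝ) ^ (-s) := Nat.Primes.summable_rpow.2 (by linarith)
  have h2 : Summable fun n : ℕ => (1 / 2 : ℝ) ^ n := summable_geometric_two
  have h3 : Summable fun x : Nat.Primes × ℕ => ((x.1 : ℕ) : ℝ) ^ (-s) * (1 / 2 : ℝ) ^ x.2 :=
    h1.mul_of_nonneg h2 (fun p => by positivity) (fun n => by positivity)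
  refine Summable.of_nonneg_of_le (fun x => wt_nonneg s x) (fun x => ?_) h3
  have hp : (2 : ℝ) ≤ ((x.1 : ℕ) : ℝ) := by exact_mod_cast x.1.2.two_le
  have h4 : ((x.1 : ℕ) : ℝ) ^ (-s) ≤ 1 / 2 := by
    calc ((x.1 : ℕ) : ℝ) ^ (-s) ≤ ((x.1 : ℕ) : ℝ) ^ (-1 : ℝ) :=
          Real.rpow_le_rpow_of_exponent_le (by linarith) (by linarith)
      _ = ((x.1 : ℕ) : ℝ)⁻¹ := Real.rpow_neg_one _
      _ ≤ 1 / 2 := by
          rw [one_div]
          exact inv_anti₀ (by norm_num) hp
  have h5 : (0 : ℝ) ≤ ((x.1 : ℕ) : ℝ) ^ (-s) := by positivity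
  have h6 : (((x.1 : ℕ) : ℝ) ^ (-s)) ^ x.2 ≤ (1 / 2 : ℝ) ^ x.2 := pow_le_pow_left₀ h5 h4 _
  unfold wt
  calc (((x.1 : ℕ) : ℝ) ^ (-s)) ^ (x.2 + 1) / ((x.2 : ℝ) + 1)
      ≤ (((x.1 : ℕ) : ℝ) ^ (-s)) ^ (x.2 + 1) := div_le_self (by positivity) (by
        have : (0 : ℝ) ≤ (x.2 : ℝ) := Nat.cast_nonneg _
        linarith)
    _ = ((x.1 : ℕ) : ℝ) ^ (-s) * (((x.1 : ℕ) : ℝ) ^ (-s)) ^ x.2 := by rw [pow_succ]; ring
    _ ≤ ((x.1 : ℕ) : ℝ) ^ (-s) * (1 / 2 : ℝ) ^ x.2 := mul_le_mul_of_nonneg_left h6 h5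

/-- coefficients -/
noncomputable def cf {k : ℕ} (c : ℝ) : Option (Fin k × Bool) → ℝ
  | none => c
  | some (_, false) => 3 / 20
  | some (_, true) => 9 / 100

end proof

open Pool.Agent.Y464.RP in
/-- **At almost all primes at least 90 percent of a family of spherical cusp forms on `PGL_2` are tempered.** -/
theorem result {k : ℕ} (hk : 0 < k) {α : Fin k → Nat.Primes → ℂ} (h : SphericalFamily α) {ε : ℝ} (hε : 0 < ε)
    (q : ℕ) [NeZero q] (a : (ZMod q)ˣ) :
    ∃ C : ℝ, ∀ᶠ s : ℝ in 𝓝[>] 1,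
      ∑' p : Nat.Primes, {p : Nat.Primes | ((p : ℕ) : ZMod q) = a ∧
        (1 / 10 + ε) * k ≤ violations α p}.indicator (fun p : Nat.Primes => ((p : ℕ) : ℝ) ^ (-s)) p ≤
      153 / (153 + 5000 * ε ^ 2 * k) / q.totient * Real.log (1 / (s - 1)) + C := by
  classical
  have hk' : (0 : ℝ) < k := by exact_mod_cast hk
  have i₀ : Fin k := ⟨0, hk⟩
  set T : Option (Fin k × Bool) → Nat.Primes × ℕ → ℂ :=
    fun u x => symTr (deg u) (α (idx i₀ u) x.1) (x.2 + 1) with hT
  set ψ : DirichletCharacter ℂ q → Nat.Primes × ℕ → ℂ :=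
    fun χ x => χ (((x.1 : ℕ) : ZMod q) ^ (x.2 + 1)) with hψ
  set e : DirichletCharacter ℂ q → ℂ := fun χ => χ ((a : ZMod q)⁻¹) / q.totient with he
  set g : Nat.Primes × ℕ → ℝ := fun x => if ((x.1 : ℕ) : ZMod q) ^ (x.2 + 1) = a then 1 else 0 with hg
  have hφ : (q.totient : ℂ) ≠ 0 := by
    exact_mod_cast (Nat.totient_pos.2 (Nat.pos_of_ne_zero (NeZero.ne q))).ne'
  have hφ' : (0 : ℝ) < q.totient := by
    exact_mod_cast Nat.totient_pos.2 (Nat.pos_of_ne_zero (NeZero.ne q))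
  have hgx : ∀ x, (g x : ℂ) = ∑ χ, e χ * ψ χ x := by
    intro x
    have h1 := DirichletCharacter.sum_char_inv_mul_char_eq ℂ a.isUnit (((x.1 : ℕ) : ZMod q) ^ (x.2 + 1))
    have h2 : ∑ χ, e χ * ψ χ x =
        (∑ χ : DirichletCharacter ℂ q, χ ((a : ZMod q)⁻¹) * χ (((x.1 : ℕ) : ZMod q) ^ (x.2 + 1))) /
          q.totient := by
      rw [Finset.sum_div]
      refine Finset.sum_congr rfl fun χ _ => ?_
      simp only [he, hψ]
      ring
    rw [h2, h1]
    by_cases hx : ((x.1 : ℕ) : ZMod q) ^ (x.2 + 1) = a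
    · rw [if_pos hx.symm, div_self hφ]
      simp [hg, hx]
    · rw [if_neg (fun h => hx h.symm), zero_div]
      simp [hg, hx]
  have hψ1 : ∀ χ x, ‖ψ χ x‖ ≤ 1 := fun χ x => DirichletCharacter.norm_le_one χ _
  have hsum : ∀ u, ∀ s : ℝ, 1 < s → Summable fun x => ‖T u x‖ ^ 2 * wt s x := by
    intro u s hs
    rcases u with _ | ⟨i, b⟩
    · -- the constant function
      refine (summable_wt s hs).congr fun x => ?_
      simp only [hT, deg, symTr_zero, norm_one, one_pow, one_mul]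
    · rcases b with _ | _
      · exact h.conv i 2 (by simp) s hs
      · exact h.conv i 4 (by simp) s hs
  set δ : DirichletCharacter ℂ q → Option (Fin k × Bool) → Option (Fin k × Bool) → ℝ :=
    fun χ u v => if χ = 1 ∧ u = v then 1 else 0 with hδ
  have hD : ∀ χ u v, ∃ C : ℝ, ∀ᶠ s : ℝ in 𝓝[>] 1,
      ‖(∑' x, ψ χ x * (T u x * (starRingEnd ℂ) (T v x)) * (wt s x : ℂ)) -
        ((δ χ u v * Real.log (1 / (s - 1)) : ℝ) : ℂ)‖ ≤ C := by
    intro χ u v
    by_cases huv : χ = 1 ∧ u = v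
    · obtain ⟨rfl, rfl⟩ := huv
      obtain ⟨C, hC⟩ := h.pole (idx i₀ u) (deg u) (deg_mem u) q
      refine ⟨C, ?_⟩
      filter_upwards [hC] with s hs
      simp only [hδ, and_self, if_true, one_mul]
      exact hs
    · have hne : ¬ (χ = 1 ∧ deg u = deg v ∧ (deg u = 0 ∨ idx i₀ u = idx i₀ v)) := by
        rintro ⟨h1, h2, h3⟩
        refine huv ⟨h1, ?_⟩
        rcases u with _ | ⟨i, _ | _⟩ <;> rcases v with _ | ⟨j, _ | _⟩ <;>
          simp_all [deg, idx]
      obtain ⟨C, hC⟩ := h.regular (idx i₀ u) (idx i₀ v) (deg u) (deg_mem u) (deg v) (deg_mem v) q χ hne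
      refine ⟨C, ?_⟩
      filter_upwards [hC] with s hs
      simp only [hδ, if_neg huv, zero_mul, Complex.ofReal_zero, sub_zero]
      exact hs
  set c₀ : ℝ := 153 / (5000 * ε) with hc₀
  have hc₀0 : 0 < c₀ := by positivity
  obtain ⟨C, hC⟩ := core wt wt_nonneg ψ hψ1 e g hgx T hsum δ (fun s => Real.log (1 / (s - 1))) hD (cf c₀)
  have hM : 0 < (c₀ + ε * k) ^ 2 := by positivity
  -- the main term
  have hmain : (∑ χ, ∑ u, ∑ v, (e χ * (cf c₀ u * cf c₀ v) * (δ χ u v : ℂ))).re =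
      (c₀ ^ 2 + 153 / 5000 * k) / q.totient := by
    have h1 : ∑ χ, ∑ u, ∑ v, (e χ * (cf c₀ u * cf c₀ v) * (δ χ u v : ℂ)) =
        ∑ u : Option (Fin k × Bool), e 1 * ((cf c₀ u : ℂ) * cf c₀ u) := by
      rw [Finset.sum_eq_single (1 : DirichletCharacter ℂ q)]
      · refine Finset.sum_congr rfl fun u _ => ?_
        rw [Finset.sum_eq_single u]
        · simp [hδ]
        · intro v _ hv
          have : ¬ ((1 : DirichletCharacter ℂ q) = 1 ∧ u = v) := fun h => hv h.2.symm
          simp only [hδ, if_neg this, Complex.ofReal_zero, mul_zero]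
        · intro hu
          exact absurd (Finset.mem_univ u) hu
      · intro χ _ hχ
        refine Finset.sum_eq_zero fun u _ => Finset.sum_eq_zero fun v _ => ?_
        have : ¬ (χ = 1 ∧ u = v) := fun h => hχ h.1
        simp only [hδ, if_neg this, Complex.ofReal_zero, mul_zero]
      · intro h1
        exact absurd (Finset.mem_univ _) h1
    have h2 : e 1 = ((1 / (q.totient : ℝ) : ℝ) : ℂ) := by
      have h3 : IsUnit ((a : ZMod q)⁻¹) := by
        rw [ZMod.inv_coe_unit]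
        exact (a⁻¹).isUnit
      simp only [he, MulChar.one_apply h3]
      push_cast
      rfl
    have h3 : ∑ u : Option (Fin k × Bool), e 1 * ((cf c₀ u : ℂ) * cf c₀ u) =
        (((c₀ ^ 2 + 153 / 5000 * k) / q.totient : ℝ) : ℂ) := by
      rw [Fintype.sum_option, Fintype.sum_prod_type]
      simp only [Fintype.sum_bool, cf, Finset.sum_const, Finset.card_univ, Fintype.card_fin, h2]
      push_cast
      simp only [nsmul_eq_mul]
      ring
    rw [h1, h3, Complex.ofReal_re]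
  rw [hmain] at hC
  set E : Set Nat.Primes := {p : Nat.Primes | ((p : ℕ) : ZMod q) = a ∧
        (1 / 10 + ε) * k ≤ violations α p} with hE
  have hEM : ∀ p ∈ E, (c₀ + ε * k) ^ 2 ≤ g (p, 0) * ‖∑ u, (cf c₀ u : ℂ) * T u (p, 0)‖ ^ 2 := by
    rintro p ⟨hp1, hp2⟩
    have hg1 : g (p, 0) = 1 := by simp [hg, hp1]
    rw [hg1, one_mul]
    have h1 : c₀ + ε * k ≤ (∑ u, (cf c₀ u : ℂ) * T u (p, 0)).re := by
      rw [Fintype.sum_option, Fintype.sum_prod_type, Complex.add_re, Complex.re_sum]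
      have h2 : ((cf c₀ (none : Option (Fin k × Bool)) : ℂ) * T none (p, 0)).re = c₀ := by
        simp only [hT, deg, symTr_zero, mul_one, cf, Complex.ofReal_re]
      rw [h2]
      have h3 : ∀ i : Fin k, (if ‖α i p‖ ≠ 1 then (1 : ℝ) else 0) - 1 / 10 ≤
          (∑ b : Bool, (cf c₀ (some (i, b)) : ℂ) * T (some (i, b)) (p, 0)).re := by
        intro i
        have h4 := local_bound (α i p) (h.ne_zero i p) (h.unitary i p)
        simp only [Fintype.sum_bool, cf, hT, deg, idx, zero_add]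
        rw [add_comm]
        exact h4
      have h5 : ∑ i : Fin k, ((if ‖α i p‖ ≠ 1 then (1 : ℝ) else 0) - 1 / 10) =
          violations α p - k / 10 := by
        rw [Finset.sum_sub_distrib, Finset.sum_const, Finset.card_univ, Fintype.card_fin, nsmul_eq_mul,
          Finset.sum_boole]
        have : violations α p = (Finset.univ.filter fun i => ‖α i p‖ ≠ 1).card := by
          unfold violations
          rw [← Set.ncard_coe_finset]
          congr 1
          ext i
          simp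
        rw [this]
        ring
      have h6 := Finset.sum_le_sum fun (i : Fin k) (_ : i ∈ Finset.univ) => h3 i
      rw [h5] at h6
      have h7 : ε * k ≤ violations α p - k / 10 := by linarith
      linarith
    have h8 : 0 ≤ c₀ + ε * k := by positivity
    exact pow_le_pow_left₀ h8 (h1.trans (Complex.re_le_norm _)) 2
  refine ⟨C / (c₀ + ε * k) ^ 2, ?_⟩
  filter_upwards [hC, self_mem_nhdsWithin] with s hs hs1
  have hs1 : 1 < s := hs1
  have h1 := large wt wt_nonneg g (fun x => by simp only [hg]; split_ifs <;> norm_num)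
    (fun x => ∑ u, (cf c₀ u : ℂ) * T u x) E _ hM hEM s
    (summable_sq wt wt_nonneg ψ hψ1 e g hgx T hsum (cf c₀) s hs1)
  have h2 : ∀ p, E.indicator (fun p : Nat.Primes => wt s (p, 0)) p =
      E.indicator (fun p : Nat.Primes => ((p : ℕ) : ℝ) ^ (-s)) p := by
    intro p
    congr 1
    funext p
    simp [wt]
  simp only [h2] at h1
  have h3 := h1.trans hs
  have h4 : ∑' p : Nat.Primes, E.indicator (fun p : Nat.Primes => ((p : ℕ) : ℝ) ^ (-s)) p ≤
      ((c₀ ^ 2 + 153 / 5000 * k) / q.totient * Real.log (1 / (s - 1)) + C) / (c₀ + ε * k) ^ 2 := by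
    rw [le_div_iff₀ hM, mul_comm]
    exact h3
  refine h4.trans (le_of_eq ?_)
  have h5 : (c₀ ^ 2 + 153 / 5000 * k) / (c₀ + ε * k) ^ 2 = 153 / (153 + 5000 * ε ^ 2 * k) := by
    have h6 : 153 + 5000 * ε ^ 2 * (k : ℝ) ≠ 0 := by positivity
    rw [div_eq_div_iff hM.ne' h6, hc₀]
    field_simp
  rw [← h5]
  ring

end Pool.Agent.Results.MP_fa98d2_nt.NinetyPercentTempered
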