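import Mathlib
import Pool.Agent.Y243.SP.Sph6

/-!
# Spherical cusp forms on `PGL_n`: tempered primes and small Hecke eigenvalues among the primes which split completely
in an abelian number field

Let `n ≥ 2`, let `φ` be a spherical cusp form on `PGL_n` over `ℚ`, with Satake parameters `α_{i,p}`, Langlands
parameters `μ_i` at the real place and Hecke eigenvalues `λ(p) = ∑_i α_{i,p}`, and let `θ_{φ,p} = max_i |log_p |α_{i,p}||`,
`θ_{φ,∞} = max_i |Re μ_i|`. Let `X` be a group of Dirichlet characters modulo `q`, and let `S` be the set of the primes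
`p` with `χ(p) = 1` for all `χ ∈ X`: the primes not dividing `q` which split completely in the abelian number field `K`
which belongs to `X` (for the group of all characters modulo `q`: the primes `p ≡ 1 mod q`). Let `c` be a real number
such that no `L(s, χ)`, `χ ∈ X`, has a real zero in the interval `max(c, 1/2) < s < 1`; for the divisors `q` of `24` this
is proved here. We show: if `c ≤ 1/2`, or if `c < 2 θ_{φ,v}` for a place `v ≤ ∞`, then

* the series `∑_{p ∈ S} max(0, 1 - |λ(p)|²) p^{-c}` diverges;
* for `c' < c` the number of the primes `p ≤ x` in `S` with `|λ(p)| < 1` is not `O(x^{c'})`;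
* if `n ≤ 3`, then the series `∑ p^{-c}` over the primes `p` in `S` such that `π_p` is tempered diverges, and for `c' < c`
  the number of these primes `p ≤ x` is not `O(x^{c'})`.

In particular every spherical cusp form on `PGL_3` is tempered at infinitely many primes which split completely in `K`,
with `∑ p^{-1/2} = ∞` over these primes.

For `K = ℚ` such results follow from the fact that a Dirichlet series which converges to the right of `1/2` contradicts
the functional equation, by a resonance argument. This is not so for `K ≠ ℚ`: the Dirichlet series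

  `log (∏_χ L(s, (π ⊗ χ) × π~) / ∏_χ L(s, χ)) = ∑_{p, k} w(p^k) (|∑_i α_{i,p}^k|² - 1) / (k p^{ks})`,

`w(p^k) = ∑_χ χ(p^k)`, has negative coefficients at the squares `p²` with `χ(p)² = 1`, `p ∉ S`, and then possibly
singularities everywhere on the line `Re s = 1/2`. The proof: if the series over `S` converges at `c ≤ 1/2`, then by
Landau's lemma the Dirichlet series `D(s)` above converges absolutely for `Re s > 1/2`, and
`D(s) + |X| (1/2 log ζ(2s) + convergent series)` has nonnegative coefficients. So the coefficients `q(γ)` of the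
logarithmic singularities at the points `1/2 + iγ` form a positive definite function. As `q(0)` is finite and `q` has
finitely many values different from `0` on `[-2, 2]`, this bounds the multiplicities of the zeros of the quotient on the
line `Re s = 1/2`, and also the number of these zeros in the intervals of length `2`, uniformly (apply the positive
definite form to the vector with `1` at `0` and `ε` at the zeros). But there are no zeros and poles off the line (at
large height), and `log |quotient|` on the left is larger than on the right by `(n² - 1) |X| (1/2 - Re s) log T` because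
of the functional equation, so Jensen's formula gives at least a constant times `log T` zeros in the disc of radius
`1/4` about `9/16 + iT`. For `c > 1/2` the local factors at `p` and at infinity give `θ_{φ,v} ≤ c / 2`.

The structure `TwistedCuspForm` lists what is used of `φ`: the local components are unitary; `L(s, π × π~)` and its
twists by the primitive Dirichlet characters have the analytic continuation and the functional equation (Jacquet,
Piatetski-Shapiro, Shalika; Moeglin, Waldspurger).
-/

set_option autoImplicit false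

namespace Pool.Agent.Results.MP_fa98d2_nt.TemperedSplitPrimes

open Pool.Agent.Y243.SP DirichletCharacter

open scoped Classical in
/-- **Small Hecke eigenvalues and tempered components at the primes which split completely in an abelian field.** -/
theorem result {n : ℕ} (hn : 2 ≤ n) (α : Nat.Primes → Fin n → ℂ) (μ : Fin n → ℂ) (h : TwistedCuspForm α μ)
    (q : ℕ) [NeZero q] (X : Subgroup (DirichletCharacter ℂ q)) (c : ℝ)
    (hz : ¬ q ∣ 24 → ∀ χ ∈ X, ∀ σ : ℝ, max c (1 / 2) < σ → σ < 1 → LFunction χ σ ≠ 0)
    (hc : c ≤ 1 / 2 ∨ (∃ (p : Nat.Primes) (i : Fin n), c < 2 * |Real.logb ((p : ℕ) : ℝ) ‖α p i‖|) ∨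
      ∃ i, c < 2 * |(μ i).re|) :
    (¬ Summable fun p : Nat.Primes =>
      if ∀ χ ∈ X, χ ((p : ℕ) : ZMod q) = 1 then max 0 (1 - ‖∑ i, α p i‖ ^ 2) * ((p : ℕ) : ℝ) ^ (-c) else 0) ∧
    (∀ c' : ℝ, c' < c → ∀ C x₀ : ℝ, ∃ x : ℝ, x₀ ≤ x ∧ C * x ^ c' <
      (({p : Nat.Primes | ((p : ℕ) : ℝ) ≤ x ∧ (∀ χ ∈ X, χ ((p : ℕ) : ZMod q) = 1) ∧ ‖∑ i, α p i‖ < 1}.ncard : ℕ) : ℝ)) ∧
    (n ≤ 3 →
      (¬ Summable fun p : {p : Nat.Primes // (∀ χ ∈ X, χ ((p : ℕ) : ZMod q) = 1) ∧ ∀ i, ‖α p i‖ = 1} =>
        ((p.1 : ℕ) : ℝ) ^ (-c)) ∧
      ∀ c' : ℝ, c' < c → ∀ C x₀ : ℝ, ∃ x : ℝ, x₀ ≤ x ∧ C * x ^ c' <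
        (({p : Nat.Primes | ((p : ℕ) : ℝ) ≤ x ∧ (∀ χ ∈ X, χ ((p : ℕ) : ZMod q) = 1) ∧
          ∀ i, ‖α p i‖ = 1}.ncard : ℕ) : ℝ)) := by
  have hz' : ∀ χ ∈ X, ∀ σ : ℝ, max c (1 / 2) < σ → σ < 1 → LFunction χ σ ≠ 0 := by
    intro χ hχ σ h1 h2
    by_cases hq : q ∣ 24
    · exact ne_of_dvd hq χ (by linarith [(le_max_right c (1 / 2)).trans_lt h1]) h2
    · exact hz hq χ hχ σ h1 h2
  exact final hn h hz' hc

end Pool.Agent.Results.MP_fa98d2_nt.TemperedSplitPrimes
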